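import Pool.Agent.W36.SL.Uni2

/-! Deviations of the climb from the straight line: counting parity words with the tilted measure. -/

set_option autoImplicit false

namespace Pool.Agent.L5helper85.SH

open Finset Pool.Agent.Helper894.Collatz Pool.Agent.H828R3.Exc Pool.Agent.W36.SL

/-- the drift under the tilted measure -/
noncomputable def dr : ℝ := Real.log (27 / 16) / 4

theorem dr_eq : dr = 3 / 4 * Real.log 3 - Real.log 2 := by
  unfold dr
  rw [Real.log_div (by norm_num) (by norm_num), show (27 : ℝ) = 3 ^ 3 by norm_num,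
    show (16 : ℝ) = 2 ^ 4 by norm_num, Real.log_pow, Real.log_pow]
  push_cast
  ring

theorem dr_pos : 0 < dr := by
  unfold dr
  have : 0 < Real.log (27 / 16) := Real.log_pos (by norm_num)
  linarith

theorem log3_bounds : 1 ≤ Real.log 3 ∧ Real.log 3 ≤ 11 / 10 := by
  constructor
  · rw [Real.le_log_iff_exp_le (by norm_num)]
    have := Real.exp_one_lt_d9
    linarith
  · rw [Real.log_le_iff_le_exp (by norm_num)]
    have h1 : Real.exp (11 / 10) = Real.exp 1 * Real.exp (1 / 10) := by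
      rw [← Real.exp_add]; norm_num
    have h2 := Real.quadratic_le_exp_of_nonneg (show (0 : ℝ) ≤ 1 / 10 by norm_num)
    have h3 := Real.exp_one_gt_d9
    rw [h1]
    have h4 : (1105 / 1000 : ℝ) ≤ Real.exp (1 / 10) := by linarith
    nlinarith

theorem dr_le : dr ≤ 1 := by
  have h1 := log3_bounds.2
  have h2 := Real.log_two_gt_d9
  rw [dr_eq]
  linarith

/-- the exponential moment of one step -/
theorem step_moment {s : ℝ} (hs : |s| ≤ 1) :
    (1 + 3 * Real.exp (s * Real.log 3)) * (Real.exp (-(s * (Real.log 2 + dr))) / 2) ≤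
      2 * Real.exp (s ^ 2) := by
  have h3 := log3_bounds
  have h2 := Real.log_two_gt_d9
  have h2' := Real.log_two_lt_d9
  have hd := dr_eq
  set α : ℝ := Real.log 3 - Real.log 2 - dr with hα
  set β : ℝ := Real.log 2 + dr with hβ
  have hα1 : 0 ≤ α ∧ α ≤ 1 := by rw [hα, hd]; constructor <;> linarith [h3.1, h3.2]
  have hβ1 : 0 ≤ β ∧ β ≤ 1 := by rw [hβ, hd]; constructor <;> linarith [h3.1, h3.2]
  have hs2 : s ^ 2 ≤ 1 := by rw [← sq_abs]; nlinarith [abs_nonneg s]
  have key : ∀ u : ℝ, |u| ≤ 1 → Real.exp u ≤ 1 + u + u ^ 2 := by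
    intro u hu
    have h := (abs_le.1 (Real.abs_exp_sub_one_sub_id_le hu)).2
    linarith
  have ha : |s * α| ≤ 1 := by
    rw [abs_mul, abs_of_nonneg hα1.1]
    calc |s| * α ≤ 1 * 1 := mul_le_mul hs hα1.2 hα1.1 (by norm_num)
      _ = 1 := by norm_num
  have hb : |-(s * β)| ≤ 1 := by
    rw [abs_neg, abs_mul, abs_of_nonneg hβ1.1]
    calc |s| * β ≤ 1 * 1 := mul_le_mul hs hβ1.2 hβ1.1 (by norm_num)
      _ = 1 := by norm_num
  have e1 : (1 + 3 * Real.exp (s * Real.log 3)) * (Real.exp (-(s * β)) / 2) =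
      2 * (1 / 4 * Real.exp (-(s * β)) + 3 / 4 * Real.exp (s * α)) := by
    have : Real.exp (s * α) = Real.exp (s * Real.log 3) * Real.exp (-(s * β)) := by
      rw [← Real.exp_add]
      congr 1
      rw [hα, hβ]
      ring
    rw [this]
    ring
  rw [e1]
  apply mul_le_mul_of_nonneg_left _ (by norm_num)
  have hA := key _ ha
  have hB := key _ hb
  have h0 : 3 / 4 * α = 1 / 4 * β := by rw [hα, hβ, hd]; ring
  have hα2 : α ^ 2 ≤ 1 := by nlinarith [hα1.1, hα1.2]
  have hβ2 : β ^ 2 ≤ 1 := by nlinarith [hβ1.1, hβ1.2]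
  have hs0 : 0 ≤ s ^ 2 := sq_nonneg s
  calc 1 / 4 * Real.exp (-(s * β)) + 3 / 4 * Real.exp (s * α)
      ≤ 1 / 4 * (1 + -(s * β) + (-(s * β)) ^ 2) + 3 / 4 * (1 + s * α + (s * α) ^ 2) := by linarith
    _ = 1 + s * (3 / 4 * α - 1 / 4 * β) + s ^ 2 * (3 / 4 * α ^ 2 + 1 / 4 * β ^ 2) := by ring
    _ ≤ 1 + s * 0 + s ^ 2 * 1 := by
        rw [h0, sub_self]
        have : 3 / 4 * α ^ 2 + 1 / 4 * β ^ 2 ≤ 1 := by linarith
        have := mul_le_mul_of_nonneg_left this hs0
        linarith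
    _ = s ^ 2 + 1 := by ring
    _ ≤ Real.exp (s ^ 2) := Real.add_one_le_exp _

theorem log_MM (j n : ℕ) : Real.log (MM j n) = od j n * Real.log 3 - j * Real.log 2 := by
  unfold MM
  rw [Real.log_div (by positivity) (by positivity), Real.log_pow, Real.log_pow]

/-- the exponential moment under the tilted measure -/
theorem sum_tilt (j : ℕ) {s : ℝ} (hs : |s| ≤ 1) :
    ∑ n ∈ range (2 ^ j), MM j n * Real.exp (s * (Real.log (MM j n) - j * dr)) ≤
      2 ^ j * Real.exp (s ^ 2 * j) := by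
  have e : ∀ n ∈ range (2 ^ j), MM j n * Real.exp (s * (Real.log (MM j n) - j * dr)) =
      (3 * Real.exp (s * Real.log 3)) ^ od j n * (Real.exp (-(s * (Real.log 2 + dr))) / 2) ^ j := by
    intro n _
    rw [log_MM]
    unfold MM
    rw [mul_pow, div_pow, ← Real.exp_nat_mul, ← Real.exp_nat_mul]
    have : Real.exp (s * ((od j n : ℝ) * Real.log 3 - j * Real.log 2 - j * dr)) =
        Real.exp ((od j n : ℝ) * (s * Real.log 3)) * Real.exp ((j : ℝ) * (-(s * (Real.log 2 + dr)))) := by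
      rw [← Real.exp_add]
      congr 1
      ring
    rw [this]
    ring
  rw [sum_congr rfl e, ← sum_mul, sum_pow_od, ← mul_pow]
  have h := step_moment hs
  have h0 : 0 ≤ (1 + 3 * Real.exp (s * Real.log 3)) * (Real.exp (-(s * (Real.log 2 + dr))) / 2) := by
    positivity
  calc ((1 + 3 * Real.exp (s * Real.log 3)) * (Real.exp (-(s * (Real.log 2 + dr))) / 2)) ^ j
      ≤ (2 * Real.exp (s ^ 2)) ^ j := pow_le_pow_left₀ h0 h j
    _ = 2 ^ j * Real.exp (s ^ 2 * j) := by
        rw [mul_pow, ← Real.exp_nat_mul, mul_comm (s ^ 2)]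

/-- the deviation of the `j`-th term -/
def Dv (a : ℝ) (j n : ℕ) : Prop := a ≤ |Real.log (MM j n) - j * dr|

open scoped Classical in
theorem sum_dev (j : ℕ) {s a : ℝ} (hs0 : 0 ≤ s) (hs1 : s ≤ 1) :
    ∑ n ∈ range (2 ^ j), (if Dv a j n then MM j n else 0) ≤
      2 * (2 ^ j * Real.exp (s ^ 2 * j - s * a)) := by
  have h1 := sum_tilt j (s := s) (by rw [abs_of_nonneg hs0]; exact hs1)
  have h2 := sum_tilt j (s := -s) (by rw [abs_neg, abs_of_nonneg hs0]; exact hs1)
  have key : ∀ n ∈ range (2 ^ j), (if Dv a j n then MM j n else 0) ≤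
      (MM j n * Real.exp (s * (Real.log (MM j n) - j * dr)) +
        MM j n * Real.exp (-s * (Real.log (MM j n) - j * dr))) * Real.exp (-(s * a)) := by
    intro n _
    set u : ℝ := Real.log (MM j n) - j * dr with hu
    have hM := MM_pos j n
    split_ifs with h
    · have h3 : a ≤ |u| := h
      rw [add_mul, mul_assoc, mul_assoc, ← Real.exp_add, ← Real.exp_add]
      rcases abs_cases u with ⟨h4, _⟩ | ⟨h4, _⟩
      · rw [h4] at h3
        have h5 : 1 ≤ Real.exp (s * u + -(s * a)) := by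
          apply Real.one_le_exp
          nlinarith
        have h6 : 0 ≤ MM j n * Real.exp (-s * u + -(s * a)) := by positivity
        nlinarith
      · rw [h4] at h3
        have h5 : 1 ≤ Real.exp (-s * u + -(s * a)) := by
          apply Real.one_le_exp
          nlinarith
        have h6 : 0 ≤ MM j n * Real.exp (s * u + -(s * a)) := by positivity
        nlinarith
    · positivity
  refine (sum_le_sum key).trans ?_
  rw [← sum_mul, sum_add_distrib]
  have e1 : Real.exp (s ^ 2 * j - s * a) = Real.exp (s ^ 2 * j) * Real.exp (-(s * a)) := by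
    rw [← Real.exp_add]; congr 1
  rw [e1]
  have h3 : (-s) ^ 2 = s ^ 2 := by ring
  rw [h3] at h2
  calc _ ≤ (2 ^ j * Real.exp (s ^ 2 * j) + 2 ^ j * Real.exp (s ^ 2 * j)) * Real.exp (-(s * a)) :=
        mul_le_mul_of_nonneg_right (add_le_add h1 h2) (Real.exp_pos _).le
    _ = _ := by ring

theorem Dv_shift {a : ℝ} {j J : ℕ} (h : j ≤ J) (x c : ℕ) : Dv a j (x + 2 ^ J * c) ↔ Dv a j x := by
  unfold Dv
  rw [MM_shift h]

open scoped Classical in
theorem sum_dev_shift (a : ℝ) (j e : ℕ) :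
    ∑ n ∈ range (2 ^ (j + e)), (if Dv a j n then MM (j + e) n else 0) =
      2 ^ e * ∑ n ∈ range (2 ^ j), (if Dv a j n then MM j n else 0) := by
  induction e with
  | zero => simp
  | succ e ih =>
    rw [← add_assoc, pow_succ, mul_two, sum_range_add, ← sum_add_distrib, pow_succ, mul_comm (2 ^ e) 2,
      mul_assoc, ← ih, mul_sum]
    apply sum_congr rfl
    intro x _
    have h1 : Dv a j (2 ^ (j + e) + x) ↔ Dv a j x := by
      have := Dv_shift (a := a) (show j ≤ j + e by omega) x 1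
      rwa [mul_one, add_comm] at this
    have h2 := (MM_children (j + e) x).1
    rw [add_comm (2 ^ (j + e)) x] at h1 ⊢
    by_cases h : Dv a j x
    · rw [if_pos h, if_pos (h1.2 h), if_pos h]
      exact h2
    · rw [if_neg h, if_neg (fun h' => h (h1.1 h')), if_neg h]
      ring

open scoped Classical in
theorem sum_dev_le {j k J : ℕ} (hjk : j ≤ k) (hkJ : k ≤ J) {s a : ℝ} (hs0 : 0 ≤ s) (hs1 : s ≤ 1) :
    ∑ n ∈ range (2 ^ J), (if Dv a j n then MM k n else 0) ≤
      2 ^ J * (2 * Real.exp (s ^ 2 * J - s * a)) := by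
  have hjJ : (j : ℝ) ≤ J := by exact_mod_cast hjk.trans hkJ
  obtain ⟨d, rfl⟩ := Nat.exists_eq_add_of_le hjk
  obtain ⟨e, rfl⟩ := Nat.exists_eq_add_of_le hkJ
  rw [sum_block (j + d) e (fun n => if Dv a j n then MM (j + d) n else 0) (fun x c => by
    simp only [Dv_shift (a := a) (show j ≤ j + d by omega), MM_shift le_rfl]), sum_dev_shift]
  have h1 : Real.exp (s ^ 2 * j - s * a) ≤ Real.exp (s ^ 2 * ((j + d + e : ℕ) : ℝ) - s * a) := by
    apply Real.exp_le_exp.2
    have := mul_le_mul_of_nonneg_left hjJ (sq_nonneg s)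
    linarith
  calc (2 : ℝ) ^ e * (2 ^ d * ∑ n ∈ range (2 ^ j), (if Dv a j n then MM j n else 0))
      ≤ 2 ^ e * (2 ^ d * (2 * (2 ^ j * Real.exp (s ^ 2 * j - s * a)))) := by
        apply mul_le_mul_of_nonneg_left _ (by positivity)
        exact mul_le_mul_of_nonneg_left (sum_dev j hs0 hs1) (by positivity)
    _ = 2 ^ (j + d + e) * (2 * Real.exp (s ^ 2 * j - s * a)) := by rw [pow_add, pow_add]; ring
    _ ≤ _ := by
        apply mul_le_mul_of_nonneg_left _ (by positivity)
        linarith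

open scoped Classical in
theorem card_dev_pair {j k J : ℕ} (hjk : j ≤ k) (hkJ : k ≤ J) {s a lam : ℝ} (hs0 : 0 ≤ s) (hs1 : s ≤ 1)
    (hlam : 0 < lam) :
    (((range (2 ^ J)).filter fun n => Dv a j n ∧ lam ≤ MM k n).card : ℝ) ≤
      2 ^ J * (2 * Real.exp (s ^ 2 * J - s * a)) / lam := by
  rw [le_div_iff₀ hlam, ← nsmul_eq_mul]
  refine le_trans ?_ (sum_dev_le hjk hkJ hs0 hs1)
  calc ((range (2 ^ J)).filter fun n => Dv a j n ∧ lam ≤ MM k n).card • lam
      ≤ ∑ n ∈ (range (2 ^ J)).filter (fun n => Dv a j n ∧ lam ≤ MM k n),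
          (if Dv a j n then MM k n else 0) := by
        apply card_nsmul_le_sum
        intro n hn
        rw [mem_filter] at hn
        rw [if_pos hn.2.1]
        exact hn.2.2
    _ ≤ _ := by
        apply sum_le_sum_of_subset_of_nonneg (filter_subset _ _)
        intro n _ _
        split_ifs
        · exact (MM_pos _ _).le
        · exact le_rfl

/-- a deviation, and at the same time or later a value `≥ lam` -/
def Bad (a lam : ℝ) (J n : ℕ) : Prop := ∃ k ≤ J, ∃ j ≤ k, Dv a j n ∧ lam ≤ MM k n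

theorem Bad_shift (a lam : ℝ) (J x c : ℕ) : Bad a lam J (x + 2 ^ J * c) ↔ Bad a lam J x := by
  unfold Bad
  constructor
  · rintro ⟨k, hk, j, hj, h⟩
    refine ⟨k, hk, j, hj, ?_⟩
    rwa [Dv_shift (hj.trans hk), MM_shift hk] at h
  · rintro ⟨k, hk, j, hj, h⟩
    refine ⟨k, hk, j, hj, ?_⟩
    rwa [Dv_shift (hj.trans hk), MM_shift hk]

open scoped Classical in
theorem card_Bad (J : ℕ) {s a lam : ℝ} (hs0 : 0 ≤ s) (hs1 : s ≤ 1) (hlam : 0 < lam) :
    (((range (2 ^ J)).filter fun n => Bad a lam J n).card : ℝ) ≤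
      (J + 1) ^ 2 * (2 ^ J * (2 * Real.exp (s ^ 2 * J - s * a)) / lam) := by
  have hsub : (range (2 ^ J)).filter (fun n => Bad a lam J n) ⊆
      (range (J + 1)).biUnion (fun k => (range (k + 1)).biUnion fun j =>
        (range (2 ^ J)).filter fun n => Dv a j n ∧ lam ≤ MM k n) := by
    intro n hn
    rw [mem_filter] at hn
    obtain ⟨h1, k, hk, j, hj, h⟩ := hn
    rw [mem_biUnion]
    refine ⟨k, mem_range.2 (by omega), ?_⟩
    rw [mem_biUnion]
    exact ⟨j, mem_range.2 (by omega), mem_filter.2 ⟨h1, h⟩⟩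
  have h1 : (((range (2 ^ J)).filter fun n => Bad a lam J n).card : ℝ) ≤
      ∑ k ∈ range (J + 1), ∑ j ∈ range (k + 1),
        (((range (2 ^ J)).filter fun n => Dv a j n ∧ lam ≤ MM k n).card : ℝ) := by
    have h2 := (card_le_card hsub).trans card_biUnion_le
    have h3 := h2.trans (sum_le_sum fun k _ => card_biUnion_le)
    exact_mod_cast h3
  refine h1.trans ?_
  have h0 : 0 ≤ 2 ^ J * (2 * Real.exp (s ^ 2 * J - s * a)) / lam := by positivity
  calc ∑ k ∈ range (J + 1), ∑ j ∈ range (k + 1),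
        (((range (2 ^ J)).filter fun n => Dv a j n ∧ lam ≤ MM k n).card : ℝ)
      ≤ ∑ k ∈ range (J + 1), ∑ j ∈ range (k + 1),
          (2 ^ J * (2 * Real.exp (s ^ 2 * J - s * a)) / lam) := by
        apply sum_le_sum
        intro k hk
        apply sum_le_sum
        intro j hj
        rw [mem_range] at hk hj
        exact card_dev_pair (by omega) (by omega) hs0 hs1 hlam
    _ ≤ ∑ k ∈ range (J + 1), ((J + 1 : ℕ) : ℝ) *
          (2 ^ J * (2 * Real.exp (s ^ 2 * J - s * a)) / lam) := by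
        apply sum_le_sum
        intro k hk
        rw [mem_range] at hk
        rw [sum_const, card_range, nsmul_eq_mul]
        apply mul_le_mul_of_nonneg_right _ h0
        exact_mod_cast (by omega : k + 1 ≤ J + 1)
    _ = _ := by
        rw [sum_const, card_range, nsmul_eq_mul]; push_cast; ring

open scoped Classical in
theorem card_Bad_N (J N : ℕ) {s a lam : ℝ} (hs0 : 0 ≤ s) (hs1 : s ≤ 1) (hlam : 0 < lam) :
    (((range N).filter fun n => Bad a lam J n).card : ℝ) ≤
      (N + 2 ^ J) * ((J + 1) ^ 2 * (2 * Real.exp (s ^ 2 * J - s * a) / lam)) := by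
  have h1 := (card_periodic (M := 2 ^ J) (by positivity) (fun n => Bad a lam J n)
    (fun x c => Bad_shift a lam J x c) N).1
  have h2 := card_Bad J (a := a) hs0 hs1 hlam
  have h2J : (0 : ℝ) < 2 ^ J := by positivity
  push_cast at h1
  refine h1.trans ?_
  calc ((N : ℝ) / 2 ^ J + 1) * (((range (2 ^ J)).filter fun n => Bad a lam J n).card : ℝ)
      ≤ ((N : ℝ) / 2 ^ J + 1) * ((J + 1) ^ 2 * (2 ^ J * (2 * Real.exp (s ^ 2 * J - s * a)) / lam)) :=
        mul_le_mul_of_nonneg_left h2 (by positivity)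
    _ = _ := by field_simp

open scoped Classical in
/-- many numbers climb straight to `lam2` -/
theorem good_fin {N N0 J : ℕ} {lam2 s a : ℝ} (hlam : 0 < lam2) (hs0 : 0 ≤ s) (hs1 : s ≤ 1) :
    ((N : ℝ) - N0 - 2 * 2 ^ J) * (1 - Pool.Agent.W36.SL.s J lam2) -
      (N + 1 + 2 ^ J) * ((J + 1) ^ 2 * (2 * Real.exp (s ^ 2 * J - s * a) / lam2)) ≤
      (((Icc 1 N).filter fun n => N0 < n ∧ PP lam2 J n ∧ ¬ Bad a lam2 J n).card : ℝ) := by
  have hsub : ((range (N + 1)).filter fun n => PP lam2 J n) ⊆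
      ((Icc 1 N).filter fun n => N0 < n ∧ PP lam2 J n ∧ ¬ Bad a lam2 J n) ∪
        ((range (N0 + 1)).filter fun n => PP lam2 J n) ∪
      ((range (N + 1)).filter fun n => Bad a lam2 J n) := by
    intro n hn
    rw [mem_filter, mem_range] at hn
    obtain ⟨hn1, hn2⟩ := hn
    rw [mem_union, mem_union]
    by_cases hnN : n ≤ N0
    · left; right
      exact mem_filter.2 ⟨mem_range.2 (by omega), hn2⟩
    by_cases hD : Bad a lam2 J n
    · right
      exact mem_filter.2 ⟨mem_range.2 hn1, hD⟩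
    left; left
    rw [mem_filter, mem_Icc]
    exact ⟨⟨by omega, by omega⟩, by omega, hn2, hD⟩
  have hcard : (((range (N + 1)).filter fun n => PP lam2 J n).card : ℝ) ≤
      (((Icc 1 N).filter fun n => N0 < n ∧ PP lam2 J n ∧ ¬ Bad a lam2 J n).card : ℝ) +
      (((range (N0 + 1)).filter fun n => PP lam2 J n).card : ℝ) +
      (((range (N + 1)).filter fun n => Bad a lam2 J n).card : ℝ) := by
    have h1 := (card_le_card hsub).trans ((card_union_le _ _).trans
      (Nat.add_le_add_right (card_union_le _ _) _))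
    exact_mod_cast h1
  have c1 := (card_PP_N J (N + 1) lam2).2
  have c2 := (card_PP_N J (N0 + 1) lam2).1
  have c3 := card_Bad_N J (N + 1) (a := a) hs0 hs1 hlam
  push_cast at c1 c2 c3
  have e : ((N : ℝ) - N0 - 2 * 2 ^ J) * (1 - Pool.Agent.W36.SL.s J lam2) =
      ((N : ℝ) + 1 - 2 ^ J) * (1 - Pool.Agent.W36.SL.s J lam2) -
        (N0 + 1 + 2 ^ J) * (1 - Pool.Agent.W36.SL.s J lam2) := by ring
  rw [e]
  linarith

/-- a straight climb over `lam * n` -/
def Climb (e lam : ℝ) (n : ℕ) : Prop :=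
  ∃ τ : ℕ, lam * n < (T^[τ] n : ℕ) ∧ (∀ j < τ, ((T^[j] n : ℕ) : ℝ) ≤ lam * n) ∧
    |τ * dr - Real.log lam| ≤ e * Real.log lam ∧
    ∀ j ≤ τ, |Real.log ((T^[j] n : ℕ) / n) - j * dr| ≤ e * Real.log lam ∧
      |(od j n : ℝ) - 3 / 4 * j| ≤ e * Real.log lam

/-- the pointwise statement -/
theorem climb_of {N0 J n : ℕ} {lam lam2 a e Y : ℝ} (hlam : 1 ≤ lam) (hl : lam < lam2)
    (hN0 : 0 < N0) (hn : N0 < n) (hP : PP lam2 J n) (hB : ¬ Bad a lam2 J n)
    (hY : Real.exp a * Y ≤ N0) (hJ : J * Real.exp a ≤ 3 * N0) (hae : a + 2 ≤ e * Real.log lam) :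
    Exc lam Y n ∧ Climb e lam n := by
  have hN0R : (0 : ℝ) < N0 := by exact_mod_cast hN0
  have hnN : (N0 : ℝ) < n := by exact_mod_cast hn
  have hn0 : (0 : ℝ) < n := by linarith
  have hd := dr_pos
  obtain ⟨k, hk, hkb⟩ := hP
  rw [ge_iff] at hkb
  have hdev : ∀ j ≤ k, |Real.log (MM j n) - j * dr| < a := by
    intro j hj
    by_contra h
    exact hB ⟨k, hk, j, hj, not_lt.1 h, hkb⟩
  have hexp : Real.exp (-a) * Real.exp a = 1 := by rw [← Real.exp_add]; simp
  set Y' : ℝ := Real.exp (-a) * N0 with hY'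
  have hY'0 : 0 < Y' := by positivity
  have hlow : ∀ j ≤ k, Real.exp (-a) * n ≤ (T^[j] n : ℕ) := by
    intro j hj
    refine le_trans ?_ (iter_ge j n)
    apply mul_le_mul_of_nonneg_right _ hn0.le
    rw [← Real.exp_log (MM_pos j n)]
    apply Real.exp_le_exp.2
    have h1 := (abs_lt.1 (hdev j hj)).1
    have h2 : 0 ≤ (j : ℝ) * dr := by positivity
    linarith
  have hlowY : ∀ j ≤ k, Y' ≤ (T^[j] n : ℕ) := by
    intro j hj
    exact (mul_le_mul_of_nonneg_left hnN.le (Real.exp_pos _).le).trans (hlow j hj)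
  have hup : ∀ j ≤ k, Real.log ((T^[j] n : ℕ) / n) ≤ Real.log (MM j n) + 1 := by
    intro j hj
    have h1 := iter_le hY'0 n j (fun i hi => hlowY i (by omega))
    have h2 : (1 + 1 / (3 * Y')) ^ j ≤ Real.exp 1 := by
      have h3 : 1 + 1 / (3 * Y') ≤ Real.exp (1 / (3 * Y')) := by
        have := Real.add_one_le_exp (1 / (3 * Y')); linarith
      calc (1 + 1 / (3 * Y')) ^ j ≤ (Real.exp (1 / (3 * Y'))) ^ j :=
            pow_le_pow_left₀ (by positivity) h3 j
        _ = Real.exp (j * (1 / (3 * Y'))) := (Real.exp_nat_mul _ _).symm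
        _ ≤ Real.exp 1 := by
            apply Real.exp_le_exp.2
            rw [mul_one_div, div_le_one (by positivity)]
            have h4 : (j : ℝ) ≤ J := by exact_mod_cast hj.trans hk
            have h5 : (j : ℝ) * Real.exp a ≤ 3 * N0 :=
              (mul_le_mul_of_nonneg_right h4 (Real.exp_pos _).le).trans hJ
            calc (j : ℝ) = (j * Real.exp a) * Real.exp (-a) := by
                  rw [mul_assoc, mul_comm (Real.exp a), hexp, mul_one]
              _ ≤ (3 * N0) * Real.exp (-a) := mul_le_mul_of_nonneg_right h5 (Real.exp_pos _).le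
              _ = 3 * Y' := by rw [hY']; ring
    have hM := MM_pos j n
    have hT : (0 : ℝ) < (T^[j] n : ℕ) := lt_of_lt_of_le hY'0 (hlowY j hj)
    have h6 : ((T^[j] n : ℕ) : ℝ) / n ≤ MM j n * Real.exp 1 := by
      rw [div_le_iff₀ hn0]
      calc _ ≤ MM j n * n * (1 + 1 / (3 * Y')) ^ j := h1
        _ ≤ MM j n * n * Real.exp 1 := mul_le_mul_of_nonneg_left h2 (by positivity)
        _ = _ := by ring
    calc Real.log ((T^[j] n : ℕ) / n) ≤ Real.log (MM j n * Real.exp 1) :=
          Real.log_le_log (by positivity) h6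
      _ = _ := by rw [Real.log_mul hM.ne' (Real.exp_pos _).ne', Real.log_exp]
  have hlo : ∀ j, Real.log (MM j n) ≤ Real.log ((T^[j] n : ℕ) / n) := by
    intro j
    apply Real.log_le_log (MM_pos j n)
    rw [le_div_iff₀ hn0]
    exact iter_ge j n
  have hshape : ∀ j ≤ k, |Real.log ((T^[j] n : ℕ) / n) - j * dr| ≤ a + 1 := by
    intro j hj
    have h1 := abs_lt.1 (hdev j hj)
    have h2 := hup j hj
    have h3 := hlo j
    rw [abs_le]
    constructor <;> linarith [h1.1, h1.2]
  -- the first passage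
  have hex : ∃ τ : ℕ, lam * n < (T^[τ] n : ℕ) := by
    refine ⟨k, ?_⟩
    calc lam * n < lam2 * n := mul_lt_mul_of_pos_right hl hn0
      _ ≤ MM k n * n := mul_le_mul_of_nonneg_right hkb hn0.le
      _ ≤ _ := iter_ge k n
  classical
  set τ := Nat.find hex with hτ
  have hτ1 : lam * n < (T^[τ] n : ℕ) := Nat.find_spec hex
  have hτ2 : ∀ j < τ, ((T^[j] n : ℕ) : ℝ) ≤ lam * n := fun j hj => not_lt.1 (Nat.find_min hex hj)
  have hτk : τ ≤ k := by
    by_contra h
    have h1 := hτ2 k (by omega)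
    have h2 : lam * n < (T^[k] n : ℕ) := by
      calc lam * n < lam2 * n := mul_lt_mul_of_pos_right hl hn0
        _ ≤ MM k n * n := mul_le_mul_of_nonneg_right hkb hn0.le
        _ ≤ _ := iter_ge k n
    linarith
  have hlam0 : 0 < lam := by linarith
  refine ⟨⟨τ, hτ1, fun j hj => ?_⟩, τ, hτ1, hτ2, ?_, fun j hj => ⟨?_, ?_⟩⟩
  · have h1 := hlow j (hj.trans hτk)
    have h2 : Y < Real.exp (-a) * n := by
      calc Y = Real.exp (-a) * (Real.exp a * Y) := by rw [← mul_assoc, hexp, one_mul]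
        _ ≤ Real.exp (-a) * N0 := mul_le_mul_of_nonneg_left hY (Real.exp_pos _).le
        _ < _ := mul_lt_mul_of_pos_left hnN (Real.exp_pos _)
    linarith
  · have hs := abs_le.1 (hshape τ hτk)
    have h1 : Real.log lam < Real.log ((T^[τ] n : ℕ) / n) := by
      apply Real.log_lt_log hlam0
      rwa [lt_div_iff₀ hn0]
    have hτ0 : τ ≠ 0 := by
      intro h
      rw [h] at hτ1
      simp only [Function.iterate_zero, id] at hτ1
      nlinarith
    obtain ⟨m, hm⟩ := Nat.exists_eq_succ_of_ne_zero hτ0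
    have h2 := hτ2 m (by omega)
    have h3 := (abs_le.1 (hshape m (by omega))).1
    have hTm : (0 : ℝ) < (T^[m] n : ℕ) := lt_of_lt_of_le hY'0 (hlowY m (by omega))
    have h4 : Real.log ((T^[m] n : ℕ) / n) ≤ Real.log lam := by
      apply Real.log_le_log (by positivity)
      rwa [div_le_iff₀ hn0]
    have h5 : (τ : ℝ) = m + 1 := by rw [hm]; push_cast; ring
    have h6 := dr_le
    rw [abs_le]
    constructor
    · linarith [hs.1, hs.2]
    · rw [h5, add_mul, one_mul]
      linarith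
  · exact (hshape j (hj.trans hτk)).trans (by linarith)
  · have h1 := abs_lt.1 (hdev j (hj.trans hτk))
    rw [log_MM] at h1
    have h3 := log3_bounds.1
    have h4 : (od j n : ℝ) * Real.log 3 - j * Real.log 2 - j * dr =
        ((od j n : ℝ) - 3 / 4 * j) * Real.log 3 := by rw [dr_eq]; ring
    rw [h4] at h1
    have h5 : |(od j n : ℝ) - 3 / 4 * j| ≤ a := by
      have h6 : |((od j n : ℝ) - 3 / 4 * j) * Real.log 3| ≤ a := abs_le.2 ⟨h1.1.le, h1.2.le⟩
      rw [abs_mul, abs_of_pos (by linarith : (0 : ℝ) < Real.log 3)] at h6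
      calc |(od j n : ℝ) - 3 / 4 * j| = |(od j n : ℝ) - 3 / 4 * j| * 1 := (mul_one _).symm
        _ ≤ |(od j n : ℝ) - 3 / 4 * j| * Real.log 3 := mul_le_mul_of_nonneg_left h3 (abs_nonneg _)
        _ ≤ a := h6
    linarith

end Pool.Agent.L5helper85.SH
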