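import Pool.Agent.L5helper85.SH.Dev

/-! The shape of the large excursions: asymptotic form. -/

set_option autoImplicit false

namespace Pool.Agent.L5helper85.SH

open Finset Filter Topology Pool.Agent.Helper894.Collatz Pool.Agent.H828R3.Exc Pool.Agent.W36.SL

open scoped Classical in
theorem climb_asym {θ' v : ℝ} (hθ0 : 0 ≤ θ') (hθ' : θ' < 1) (hv : v < 1 / 21)
    {e η : ℝ} (he : 0 < e) (heθ : e ≤ 1 - θ') (hη : 0 < η) (hη1 : η ≤ 1) (hηC : 2 * η ≤ C) :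
    ∃ L0 : ℝ, 1 ≤ L0 ∧ ∀ᶠ x in (atTop : Filter ℝ), ∀ Y lam : ℝ,
      0 ≤ Y → Y ≤ x ^ θ' → L0 ≤ lam → lam ≤ x ^ v →
      ((1 - η) * ((C - 2 * η) / (1 + η)) - η) * (x / lam) ≤
      (((Icc 1 ⌊x⌋₊).filter fun n => Exc lam Y n ∧ Climb e lam n).card : ℝ) := by
  obtain ⟨L1, hL1, hp⟩ := p_ev hη
  have he2 : 0 < e ^ 2 / 800 := by positivity
  obtain ⟨L2, hL2⟩ := eventually_atTop.1 (ev_small 2 he2 (6 * 61 ^ 2) hη)
  have he1 : e ≤ 1 := by linarith
  set L0 : ℝ := max (max L1 L2) (max (Real.exp (4 / e)) (2 / η ^ 2)) with hL0def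
  have hexp1 : Real.exp 1 ≤ L0 := by
    have h1 : Real.exp 1 ≤ Real.exp (4 / e) := by
      apply Real.exp_le_exp.2
      rw [le_div_iff₀ he]; linarith
    exact h1.trans ((le_max_left _ _).trans (le_max_right _ _))
  have hone : 1 ≤ L0 := (Real.one_le_exp (by norm_num)).trans hexp1
  refine ⟨L0, hone, ?_⟩
  set δ : ℝ := (1 - θ') / 2 with hδ
  have hδ0 : 0 < δ := by rw [hδ]; linarith
  filter_upwards [eventually_ge_atTop (Real.exp 1),
    ev_small 0 (show (0 : ℝ) < 1 / 21 by norm_num) (4 * 2 ^ 40) (show 0 < η / 2 by linarith),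
    ev_small 0 hδ0 1 (show 0 < η / 2 by linarith),
    ev_small 1 (show (0 : ℝ) < 1 / 4 by norm_num) 60 (show (0 : ℝ) < 1 by norm_num)]
    with x hx1 hx2 hx3 hx4 Y lam hY0 hY hlam hlamx
  rw [pow_zero, one_mul] at hx2 hx3
  rw [one_mul] at hx3
  rw [pow_one] at hx4
  have hxe : (2 : ℝ) ≤ x := by
    have := Real.add_one_le_exp 1
    linarith
  have hx0 : 0 < x := by linarith
  have hxone : 1 ≤ x := by linarith
  set L := Real.log x with hL
  have hL1' : 1 ≤ L := by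
    rw [hL, ← Real.log_exp 1]; exact Real.log_le_log (Real.exp_pos 1) hx1
  have hlam1 : 1 ≤ lam := hone.trans hlam
  have hlam0 : 0 < lam := by linarith
  set ℓ := Real.log lam with hℓ
  have hℓ1 : 1 ≤ ℓ := by
    rw [hℓ, ← Real.log_exp 1]; exact Real.log_le_log (Real.exp_pos 1) (hexp1.trans hlam)
  have hlam21 : lam ≤ x ^ (1 / 21 : ℝ) :=
    hlamx.trans (Real.rpow_le_rpow_of_exponent_le hxone hv.le)
  have hℓL : ℓ ≤ 1 / 21 * L := by
    rw [hℓ, hL, ← Real.log_rpow hx0]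
    exact Real.log_le_log hlam0 hlam21
  obtain ⟨m, hm1, hm2⟩ := near hlam1
  set J : ℕ := 20 * (m + 1) with hJ
  have hmℓ := log_bound hlam0 hm1
  have hJℓ : (J : ℝ) + 1 ≤ 61 * ℓ := by
    rw [hJ]; push_cast
    linarith
  have hN1 : ((⌊x⌋₊ : ℕ) : ℝ) ≤ x := Nat.floor_le hx0.le
  have hN2 : x < ((⌊x⌋₊ : ℕ) : ℝ) + 1 := Nat.lt_floor_add_one x
  set lam2 := lam * (1 + η) with hlam2
  have hl2 : lam < lam2 := by
    have h1 : 0 < lam * η := mul_pos hlam0 hη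
    rw [hlam2]; linarith
  have hlam20 : 0 < lam2 := by linarith
  set N0 := ⌊x ^ (1 - δ)⌋₊ + 1 with hN0
  have hxd : 0 < x ^ (1 - δ) := by positivity
  have hN0a : ((N0 : ℕ) : ℝ) ≤ x ^ (1 - δ) + 1 := by
    rw [hN0]; push_cast
    have := Nat.floor_le hxd.le
    linarith
  have hN0b : x ^ (1 - δ) ≤ ((N0 : ℕ) : ℝ) := by
    rw [hN0]; push_cast
    exact (Nat.lt_floor_add_one _).le
  set a : ℝ := e / 2 * ℓ with ha
  set s : ℝ := e / 200 with hs
  have hs0 : 0 ≤ s := by positivity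
  have hs1 : s ≤ 1 := by rw [hs]; linarith
  have hfin := good_fin (N := ⌊x⌋₊) (N0 := N0) (J := J) (lam2 := lam2) (s := s) (a := a)
    hlam20 hs0 hs1
  have hp20 : (x ^ (1 / 21 : ℝ)) ^ 20 = x * x ^ (-(1 / 21) : ℝ) := by
    have h1 : (x ^ (1 / 21 : ℝ)) ^ 20 = x ^ (20 / 21 : ℝ) := by
      rw [← Real.rpow_natCast (x ^ (1 / 21 : ℝ)) 20, ← Real.rpow_mul hx0.le]
      norm_num
    rw [h1, ← Real.rpow_one_add' hx0.le (by norm_num)]
    norm_num
  have h2J : (2 : ℝ) ^ J ≤ 2 ^ 20 * (x * x ^ (-(1 / 21) : ℝ)) := by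
    have h1 : (2 : ℝ) ^ (m + 1) ≤ 2 * lam := by rw [pow_succ]; linarith
    calc (2 : ℝ) ^ J = (2 ^ (m + 1)) ^ 20 := by rw [hJ, mul_comm, pow_mul]
      _ ≤ (2 * lam) ^ 20 := pow_le_pow_left₀ (by positivity) h1 20
      _ = 2 ^ 20 * lam ^ 20 := by rw [mul_pow]
      _ ≤ 2 ^ 20 * (x ^ (1 / 21 : ℝ)) ^ 20 := by
          apply mul_le_mul_of_nonneg_left _ (by positivity)
          exact pow_le_pow_left₀ hlam0.le hlam21 20
      _ = 2 ^ 20 * (x * x ^ (-(1 / 21) : ℝ)) := by rw [hp20]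
  have hxm : 1 ≤ x * x ^ (-(1 / 21) : ℝ) := by
    rw [← Real.rpow_one_add' hx0.le (by norm_num)]
    exact Real.one_le_rpow hxone (by norm_num)
  have hxδ : x ^ (1 - δ) = x * x ^ (-δ) := by
    rw [sub_eq_add_neg, Real.rpow_add hx0, Real.rpow_one]
  have hbig : 2 * 2 ^ J + 2 ≤ η / 2 * x := by
    have h2 : x * (4 * 2 ^ 40 * x ^ (-(1 / 21) : ℝ)) ≤ x * (η / 2) := mul_le_mul_of_nonneg_left hx2 hx0.le
    have h3 : (2 : ℝ) * 2 ^ J + 2 ≤ 4 * 2 ^ 40 * (x * x ^ (-(1 / 21) : ℝ)) := by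
      linarith
    calc _ ≤ 4 * 2 ^ 40 * (x * x ^ (-(1 / 21) : ℝ)) := h3
      _ = x * (4 * 2 ^ 40 * x ^ (-(1 / 21) : ℝ)) := by ring
      _ ≤ _ := by linarith
  have hmain : (1 - η) * x ≤ ((⌊x⌋₊ : ℕ) : ℝ) - N0 - 2 * 2 ^ J := by
    rw [hxδ] at hN0a
    have h1 : x * x ^ (-δ) ≤ x * (η / 2) := mul_le_mul_of_nonneg_left hx3 hx0.le
    linarith
  have hprob : (C - 2 * η) / (1 + η) / lam ≤ 1 - Pool.Agent.W36.SL.s J lam2 := by
    have h1 := s_sub_q J lam2 hlam20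
    have h2 := (hp lam2 (((le_max_left _ _).trans (le_max_left _ _)).trans (hlam.trans hl2.le))).1
    unfold p at h2
    have hsq : 0 < Real.sqrt lam2 := Real.sqrt_pos.2 hlam20
    have hb : b ^ J ≤ 1 / lam := by
      rw [hJ, pow_mul]
      calc (b ^ 20) ^ (m + 1) ≤ (1 / 2) ^ (m + 1) :=
            pow_le_pow_left₀ (pow_nonneg b_pos.le _) b_pow _
        _ = 1 / 2 ^ (m + 1) := by rw [one_div, inv_pow, one_div]
        _ ≤ 1 / lam := one_div_le_one_div_of_le hlam0 hm2.le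
    have h3 : b ^ J / Real.sqrt lam2 ≤ η / lam2 := by
      rw [div_le_div_iff₀ hsq hlam20]
      have h4 : lam2 = Real.sqrt lam2 * Real.sqrt lam2 := (Real.mul_self_sqrt hlam20.le).symm
      have h5 : Real.sqrt lam2 ≤ η * lam := by
        rw [Real.sqrt_le_left (by positivity)]
        have h6 : 2 / η ^ 2 ≤ lam := (((le_max_right _ _).trans (le_max_right _ _))).trans hlam
        rw [div_le_iff₀ (by positivity)] at h6
        calc lam2 ≤ lam * 2 := mul_le_mul_of_nonneg_left (by linarith) hlam0.le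
          _ ≤ lam * (lam * η ^ 2) := mul_le_mul_of_nonneg_left h6 hlam0.le
          _ = (η * lam) ^ 2 := by ring
      calc b ^ J * lam2 = (b ^ J * Real.sqrt lam2) * Real.sqrt lam2 := by
            rw [mul_assoc, Real.mul_self_sqrt hlam20.le]
        _ ≤ (1 / lam * (η * lam)) * Real.sqrt lam2 := by
            apply mul_le_mul_of_nonneg_right _ hsq.le
            exact mul_le_mul hb h5 hsq.le (by positivity)
        _ = η * Real.sqrt lam2 := by field_simp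
    have h9 : (C - 2 * η) / (1 + η) / lam = (C - η) / lam2 - η / lam2 := by
      rw [hlam2]
      field_simp
      ring
    rw [h9]
    linarith
  have hT1 : (1 - η) * ((C - 2 * η) / (1 + η)) * (x / lam) ≤
      (((⌊x⌋₊ : ℕ) : ℝ) - N0 - 2 * 2 ^ J) * (1 - Pool.Agent.W36.SL.s J lam2) := by
    have h0 : 0 ≤ (C - 2 * η) / (1 + η) / lam := by
      apply div_nonneg (div_nonneg (by linarith) (by linarith)) hlam0.le
    have h1 : 0 ≤ (1 - η) * x := mul_nonneg (by linarith) hx0.le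
    calc (1 - η) * ((C - 2 * η) / (1 + η)) * (x / lam)
        = ((1 - η) * x) * ((C - 2 * η) / (1 + η) / lam) := by ring
      _ ≤ _ := mul_le_mul hmain hprob h0 (h1.trans hmain)
  have hT2 : (((⌊x⌋₊ : ℕ) : ℝ) + 1 + 2 ^ J) *
      ((J + 1) ^ 2 * (2 * Real.exp (s ^ 2 * J - s * a) / lam2)) ≤ η * (x / lam) := by
    have h1 : Real.exp (s ^ 2 * J - s * a) ≤ lam ^ (-(e ^ 2 / 800) : ℝ) := by
      rw [Real.rpow_def_of_pos hlam0]
      apply Real.exp_le_exp.2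
      have h2 : (J : ℝ) ≤ 50 * ℓ := by
        rw [hJ]; push_cast
        linarith
      have h3 : s ^ 2 * (J : ℝ) ≤ s ^ 2 * (50 * ℓ) := mul_le_mul_of_nonneg_left h2 (sq_nonneg s)
      calc s ^ 2 * (J : ℝ) - s * a ≤ s ^ 2 * (50 * ℓ) - s * a := by linarith
        _ = ℓ * (-(e ^ 2 / 800)) := by rw [hs, ha]; ring
    have h4 : ((J : ℝ) + 1) ^ 2 ≤ 61 ^ 2 * ℓ ^ 2 := by
      calc ((J : ℝ) + 1) ^ 2 ≤ (61 * ℓ) ^ 2 := pow_le_pow_left₀ (by positivity) hJℓ 2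
        _ = _ := by ring
    have h5 : ((⌊x⌋₊ : ℕ) : ℝ) + 1 + 2 ^ J ≤ 3 * x := by
      have h6 : η / 2 * x ≤ 1 / 2 * x := mul_le_mul_of_nonneg_right (by linarith) hx0.le
      linarith
    have h6 := hL2 lam (((le_max_right _ _).trans (le_max_left _ _)).trans hlam)
    have h7 : 2 * Real.exp (s ^ 2 * J - s * a) / lam2 ≤ 2 * lam ^ (-(e ^ 2 / 800) : ℝ) / lam := by
      apply div_le_div₀ (by positivity) (by linarith) hlam0 hl2.le
    calc _ ≤ (3 * x) * ((61 ^ 2 * ℓ ^ 2) * (2 * lam ^ (-(e ^ 2 / 800) : ℝ) / lam)) := by gcongr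
      _ = (6 * 61 ^ 2 * (ℓ ^ 2 * lam ^ (-(e ^ 2 / 800) : ℝ))) * (x / lam) := by ring
      _ ≤ η * (x / lam) := mul_le_mul_of_nonneg_right h6 (by positivity)
  have hexpa : Real.exp a ≤ x ^ (1 / 42 : ℝ) := by
    rw [Real.rpow_def_of_pos hx0]
    apply Real.exp_le_exp.2
    rw [ha]
    have h1 : e / 2 * ℓ ≤ 1 / 2 * ℓ := mul_le_mul_of_nonneg_right (by linarith) (by linarith)
    linarith
  have hexpe : Real.exp a ≤ x ^ (e / 42 : ℝ) := by
    rw [Real.rpow_def_of_pos hx0]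
    apply Real.exp_le_exp.2
    rw [ha]
    have h1 : e / 2 * ℓ ≤ e / 2 * (1 / 21 * L) := mul_le_mul_of_nonneg_left hℓL (by positivity)
    linarith
  have hlog4 : 4 / e ≤ ℓ := by
    rw [hℓ, Real.le_log_iff_exp_le hlam0]
    exact ((le_max_left _ _).trans (le_max_right _ _)).trans hlam
  rw [div_le_iff₀ he] at hlog4
  have hsub : ((Icc 1 ⌊x⌋₊).filter fun n => N0 < n ∧ PP lam2 J n ∧ ¬ Bad a lam2 J n) ⊆
      (Icc 1 ⌊x⌋₊).filter fun n => Exc lam Y n ∧ Climb e lam n := by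
    intro n hn
    rw [mem_filter] at hn ⊢
    obtain ⟨hn1, hn2, hn3, hn4⟩ := hn
    refine ⟨hn1, climb_of hlam1 hl2 (Nat.succ_pos _) hn2 hn3 hn4 ?_ ?_ ?_⟩
    · calc Real.exp a * Y ≤ x ^ (e / 42 : ℝ) * x ^ θ' := mul_le_mul hexpe hY hY0 (by positivity)
        _ = x ^ (e / 42 + θ') := (Real.rpow_add hx0 _ _).symm
        _ ≤ x ^ (1 - δ) := by
            apply Real.rpow_le_rpow_of_exponent_le hxone
            rw [hδ]; linarith
        _ ≤ N0 := hN0b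
    · have h1 : (J : ℝ) ≤ 60 * L := by
        have : ℓ ≤ L := by linarith
        linarith
      have h2 : 60 * L ≤ x ^ (1 / 4 : ℝ) := by
        have h3 : x ^ (1 / 4 : ℝ) * x ^ (-(1 / 4) : ℝ) = 1 := by
          rw [← Real.rpow_add hx0]; norm_num
        calc 60 * L = (60 * (L * x ^ (-(1 / 4) : ℝ))) * x ^ (1 / 4 : ℝ) := by
              rw [mul_assoc, mul_assoc, mul_comm (x ^ (-(1 / 4) : ℝ)), h3, mul_one]
          _ ≤ 1 * x ^ (1 / 4 : ℝ) := mul_le_mul_of_nonneg_right hx4 (by positivity)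
          _ = _ := one_mul _
      calc (J : ℝ) * Real.exp a ≤ x ^ (1 / 4 : ℝ) * x ^ (1 / 42 : ℝ) :=
            mul_le_mul (h1.trans h2) hexpa (Real.exp_pos _).le (by positivity)
        _ = x ^ (1 / 4 + 1 / 42 : ℝ) := (Real.rpow_add hx0 _ _).symm
        _ ≤ x ^ (1 - δ) := by
            apply Real.rpow_le_rpow_of_exponent_le hxone
            rw [hδ]; linarith
        _ ≤ N0 := hN0b
        _ ≤ 3 * N0 := by
            have : (0 : ℝ) ≤ N0 := Nat.cast_nonneg _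
            linarith
    · rw [ha]
      linarith
  have hcard : (((Icc 1 ⌊x⌋₊).filter fun n => N0 < n ∧ PP lam2 J n ∧ ¬ Bad a lam2 J n).card : ℝ) ≤
      (((Icc 1 ⌊x⌋₊).filter fun n => Exc lam Y n ∧ Climb e lam n).card : ℝ) := by
    exact_mod_cast card_le_card hsub
  calc ((1 - η) * ((C - 2 * η) / (1 + η)) - η) * (x / lam)
      = (1 - η) * ((C - 2 * η) / (1 + η)) * (x / lam) - η * (x / lam) := by ring
    _ ≤ (((⌊x⌋₊ : ℕ) : ℝ) - N0 - 2 * 2 ^ J) * (1 - Pool.Agent.W36.SL.s J lam2) -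
        (((⌊x⌋₊ : ℕ) : ℝ) + 1 + 2 ^ J) *
          ((J + 1) ^ 2 * (2 * Real.exp (s ^ 2 * J - s * a) / lam2)) := by linarith
    _ ≤ _ := hfin.trans hcard

theorem Climb_mono {e e' lam : ℝ} (hlam : 1 ≤ lam) (h : e ≤ e') {n : ℕ} (hc : Climb e lam n) :
    Climb e' lam n := by
  have h1 : e * Real.log lam ≤ e' * Real.log lam :=
    mul_le_mul_of_nonneg_right h (Real.log_nonneg hlam)
  obtain ⟨τ, a1, a2, a3, a4⟩ := hc
  exact ⟨τ, a1, a2, a3.trans h1, fun j hj => ⟨(a4 j hj).1.trans h1, (a4 j hj).2.trans h1⟩⟩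

open scoped Classical in
/-- THE SHAPE -/
theorem shape {θ θ' v : ℝ} (hθ : 0 < θ) (hθθ' : θ ≤ θ') (hθ' : θ' < 1) (hv : v < θ / 21)
    {e ε : ℝ} (he : 0 < e) (hε : 0 < ε) : ∃ L0 x0 : ℝ, ∀ x Y lam : ℝ, x0 ≤ x → x ^ θ ≤ Y → Y ≤ x ^ θ' →
      L0 ≤ lam → lam ≤ x ^ v →
      C / 2 * (x / lam) ≤ (((Icc 1 ⌊x⌋₊).filter (Exc lam Y)).card : ℝ) ∧
      (((Icc 1 ⌊x⌋₊).filter fun n => Exc lam Y n ∧ ¬ Climb e lam n).card : ℝ) ≤
        ε * (((Icc 1 ⌊x⌋₊).filter (Exc lam Y)).card : ℝ) := by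
  have hC := C_pos
  set η : ℝ := min (min 1 (C / 2)) (ε * C / (2 * (4 + 4 * C))) with hηdef
  have hη : 0 < η := by
    rw [hηdef]
    exact lt_min (lt_min one_pos (by linarith)) (by positivity)
  have hη1 : η ≤ 1 := (min_le_left _ _).trans (min_le_left _ _)
  have hηC : 2 * η ≤ C := by
    have : η ≤ C / 2 := (min_le_left _ _).trans (min_le_right _ _)
    linarith
  have hηε : η * (2 * (4 + 4 * C)) ≤ ε * C := by
    have : η ≤ ε * C / (2 * (4 + 4 * C)) := min_le_right _ _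
    rwa [le_div_iff₀ (by positivity)] at this
  set e' : ℝ := min e (1 - θ') with he'
  have he'0 : 0 < e' := lt_min he (by linarith)
  obtain ⟨La, xa, hA⟩ := uniform hθ hθθ' hθ' hv hη
  obtain ⟨Lb, hLb, hB⟩ := climb_asym (by linarith : 0 ≤ θ') hθ' (show v < 1 / 21 by linarith) he'0
    (min_le_right _ _) hη hη1 hηC
  obtain ⟨xb, hxb⟩ := eventually_atTop.1 hB
  refine ⟨max La Lb, max (max xa xb) 1, fun x Y lam hx hY1 hY2 hl1 hl2 => ?_⟩
  have hxone : 1 ≤ x := (le_max_right _ _).trans hx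
  have hx0 : 0 < x := by linarith
  have hlam1 : 1 ≤ lam := hLb.trans ((le_max_right _ _).trans hl1)
  have hlam0 : 0 < lam := by linarith
  have hY0 : 0 ≤ Y := le_trans (by positivity) hY1
  have h1 := hA x Y lam ((le_max_left _ _).trans ((le_max_left _ _).trans hx)) hY1 hY2
    ((le_max_left _ _).trans hl1) hl2
  have h2 := hxb x ((le_max_right _ _).trans ((le_max_left _ _).trans hx)) Y lam hY0 hY2
    ((le_max_right _ _).trans hl1) hl2
  rw [abs_le] at h1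
  have hr : 0 < x / lam := by positivity
  set E : ℝ := (((Icc 1 ⌊x⌋₊).filter (Exc lam Y)).card : ℝ) with hE
  have hlow : C / 2 * (x / lam) ≤ E := by
    have : (C - η) * (x / lam) ≤ E := by linarith [h1.1]
    have h3 : C / 2 * (x / lam) ≤ (C - η) * (x / lam) :=
      mul_le_mul_of_nonneg_right (by linarith) hr.le
    linarith
  refine ⟨hlow, ?_⟩
  have hsplit : (((Icc 1 ⌊x⌋₊).filter fun n => Exc lam Y n ∧ ¬ Climb e lam n).card : ℝ) +
      (((Icc 1 ⌊x⌋₊).filter fun n => Exc lam Y n ∧ Climb e' lam n).card : ℝ) ≤ E := by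
    have h3 : Disjoint ((Icc 1 ⌊x⌋₊).filter fun n => Exc lam Y n ∧ ¬ Climb e lam n)
        ((Icc 1 ⌊x⌋₊).filter fun n => Exc lam Y n ∧ Climb e' lam n) := by
      rw [disjoint_left]
      intro n h4 h5
      rw [mem_filter] at h4 h5
      exact h4.2.2 (Climb_mono hlam1 (min_le_left _ _) h5.2.2)
    rw [hE]
    have h4 := card_union_of_disjoint h3
    have h5 : ((Icc 1 ⌊x⌋₊).filter fun n => Exc lam Y n ∧ ¬ Climb e lam n) ∪
        ((Icc 1 ⌊x⌋₊).filter fun n => Exc lam Y n ∧ Climb e' lam n) ⊆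
        (Icc 1 ⌊x⌋₊).filter (Exc lam Y) := by
      intro n hn
      rw [mem_union, mem_filter, mem_filter] at hn
      rw [mem_filter]
      rcases hn with h | h
      · exact ⟨h.1, h.2.1⟩
      · exact ⟨h.1, h.2.1⟩
    have h6 := card_le_card h5
    rw [h4] at h6
    exact_mod_cast h6
  have hfrac : C - 2 * η - 2 * η * C ≤ (1 - η) * ((C - 2 * η) / (1 + η)) := by
    rw [mul_div_assoc', le_div_iff₀ (by linarith)]
    nlinarith [mul_nonneg hη.le hη.le, mul_nonneg (mul_nonneg hη.le hη.le) hC.le]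
  have h7 : (C - 2 * η - 2 * η * C - η) * (x / lam) ≤
      ((1 - η) * ((C - 2 * η) / (1 + η)) - η) * (x / lam) :=
    mul_le_mul_of_nonneg_right (by linarith) hr.le
  have h8 : (((Icc 1 ⌊x⌋₊).filter fun n => Exc lam Y n ∧ ¬ Climb e lam n).card : ℝ) ≤
      (η * (4 + 4 * C)) * (x / lam) := by
    have h9 : E ≤ (C + η) * (x / lam) := by linarith [h1.2]
    have h10 : (C + η) * (x / lam) - (C - 2 * η - 2 * η * C - η) * (x / lam) =
        (η * (4 + 2 * C)) * (x / lam) := by ring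
    have h11 : (η * (4 + 2 * C)) * (x / lam) ≤ (η * (4 + 4 * C)) * (x / lam) := by
      apply mul_le_mul_of_nonneg_right _ hr.le
      apply mul_le_mul_of_nonneg_left _ hη.le
      linarith
    linarith
  calc _ ≤ (η * (4 + 4 * C)) * (x / lam) := h8
    _ ≤ (ε * C / 2) * (x / lam) := mul_le_mul_of_nonneg_right (by linarith) hr.le
    _ = ε * (C / 2 * (x / lam)) := by ring
    _ ≤ ε * E := mul_le_mul_of_nonneg_left hlow hε.le

end Pool.Agent.L5helper85.SH
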